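import Pool.Agent.helper56.NR.Spec

set_option autoImplicit false

open Complex Metric Set Filter Topology MeasureTheory Pool.Agent.helper98.ILF

open EX (ff)

noncomputable section

namespace NR

theorem TWO_step (κ : ℝ) (hκ : 1 ≤ κ)
    (hK : ∀ (G : ℂ → ℂ) (a : ℂ) (r : ℝ), 0 < r → DifferentiableOn ℂ G (ball a r) → InjOn G (ball a r) →
      ∀ x ∈ ball a ((1 - 1 / 4) * r), ‖deriv G x‖ ≤ κ * ‖deriv G a‖ ∧ ‖G x - G a‖ ≤ κ * ‖x - a‖ * ‖deriv G a‖)
    (G : ℂ → ℂ) (a : ℂ) (r : ℝ) (hd : DifferentiableOn ℂ G (ball a r)) (hi : InjOn G (ball a r)) :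
    ∀ (k : ℕ) (p : ℂ) (s : ℝ), 0 < s → s ≤ r → (2 / 3 : ℝ) ^ k * r ≤ s → ‖p - a‖ ≤ r - s →
      ‖G a - G p‖ ≤ (2 * κ) ^ k * r * ‖deriv G p‖ := by
  intro k
  induction k with
  | zero =>
    intro p s hs hsr hk hp
    have h1 : ‖p - a‖ ≤ 0 := by
      rw [pow_zero, one_mul] at hk
      linarith
    have h2 : p = a := by
      have := norm_le_zero_iff.1 h1
      exact sub_eq_zero.1 this
    rw [h2, sub_self, norm_zero]
    have : 0 ≤ r := by linarith
    positivity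
  | succ k ih =>
    intro p s hs hsr hk hp
    have hr : 0 < r := by linarith
    have hsub : ball p s ⊆ ball a r := by
      intro z hz
      rw [mem_ball, dist_eq_norm] at hz ⊢
      calc ‖z - a‖ = ‖(z - p) + (p - a)‖ := by ring_nf
        _ ≤ ‖z - p‖ + ‖p - a‖ := norm_add_le _ _
        _ < r := by linarith
    have hKp := hK G p s hs (hd.mono hsub) (hi.mono hsub)
    have hD : 0 ≤ ‖deriv G p‖ := norm_nonneg _
    have hpow : 1 ≤ (2 * κ) ^ k := one_le_pow₀ (by linarith)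
    by_cases hc : ‖p - a‖ ≤ s / 2
    · have hm : a ∈ ball p ((1 - 1 / 4) * s) := by
        rw [mem_ball, dist_eq_norm, norm_sub_rev]
        linarith
      have h2 := (hKp a hm).2
      have h3 : ‖a - p‖ ≤ r := by
        rw [norm_sub_rev]
        linarith
      calc ‖G a - G p‖ ≤ κ * ‖a - p‖ * ‖deriv G p‖ := h2
        _ ≤ κ * r * ‖deriv G p‖ := by gcongr
        _ ≤ (2 * κ) ^ (k + 1) * r * ‖deriv G p‖ := by
          have : κ ≤ (2 * κ) ^ (k + 1) := by
            rw [pow_succ]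
            nlinarith
          gcongr
    · push Not at hc
      have hd0 : 0 < ‖p - a‖ := by linarith
      obtain ⟨q, hq1, hq2⟩ : ∃ q : ℂ, ‖q - p‖ = s / 2 ∧ ‖q - a‖ = ‖p - a‖ - s / 2 := by
        refine ⟨p + (s / 2 / ‖p - a‖ : ℝ) • (a - p), ?_, ?_⟩
        · have e1 : p + (s / 2 / ‖p - a‖ : ℝ) • (a - p) - p = (s / 2 / ‖p - a‖ : ℝ) • (a - p) := by ring
          rw [e1, norm_smul, Real.norm_eq_abs, abs_of_nonneg (by positivity), norm_sub_rev a p,
            div_mul_cancel₀ _ hd0.ne']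
        · have e1 : p + (s / 2 / ‖p - a‖ : ℝ) • (a - p) - a = (1 - s / 2 / ‖p - a‖ : ℝ) • (p - a) := by
            rw [sub_smul, one_smul, ← neg_sub p a, smul_neg]
            ring
          have e2 : 0 ≤ 1 - s / 2 / ‖p - a‖ := by
            rw [sub_nonneg, div_le_one hd0]
            exact hc.le
          rw [e1, norm_smul, Real.norm_eq_abs, abs_of_nonneg e2]
          field_simp
      have hm : q ∈ ball p ((1 - 1 / 4) * s) := by
        rw [mem_ball, dist_eq_norm, hq1]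
        linarith
      obtain ⟨h3, h4⟩ := hKp q hm
      have hs' : 3 / 2 * s ≤ r := by
        have := norm_nonneg (q - a)
        linarith
      have hk' : (2 / 3 : ℝ) ^ k * r ≤ 3 / 2 * s := by
        rw [pow_succ] at hk
        linarith
      have h5 := ih q (3 / 2 * s) (by linarith) hs' hk' (by linarith)
      have h6 : ‖G q - G p‖ ≤ (2 * κ) ^ k * (κ * r * ‖deriv G p‖) := by
        calc ‖G q - G p‖ ≤ κ * ‖q - p‖ * ‖deriv G p‖ := h4
          _ ≤ κ * r * ‖deriv G p‖ := by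
            rw [hq1]
            have : s / 2 ≤ r := by linarith
            gcongr
          _ ≤ (2 * κ) ^ k * (κ * r * ‖deriv G p‖) := le_mul_of_one_le_left (by positivity) hpow
      have h7 : ‖G a - G q‖ ≤ (2 * κ) ^ k * (κ * r * ‖deriv G p‖) := by
        calc ‖G a - G q‖ ≤ (2 * κ) ^ k * r * ‖deriv G q‖ := h5
          _ ≤ (2 * κ) ^ k * r * (κ * ‖deriv G p‖) := by gcongr
          _ = (2 * κ) ^ k * (κ * r * ‖deriv G p‖) := by ring
      calc ‖G a - G p‖ = ‖(G a - G q) + (G q - G p)‖ := by ring_nf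
        _ ≤ ‖G a - G q‖ + ‖G q - G p‖ := norm_add_le _ _
        _ ≤ (2 * κ) ^ k * (κ * r * ‖deriv G p‖) + (2 * κ) ^ k * (κ * r * ‖deriv G p‖) := by gcongr
        _ = (2 * κ) ^ (k + 1) * r * ‖deriv G p‖ := by ring

theorem TWO (hKO3 : V3.KO3_stmt) : TWO_stmt := by
  obtain ⟨κ, hκ, hK⟩ := hKO3 (1 / 4) (by norm_num) (by norm_num)
  obtain ⟨N, hN⟩ := pow_unbounded_of_one_lt (2 * κ) (show (1 : ℝ) < 3 / 2 by norm_num)
  refine ⟨2 * κ, N, by linarith, ?_⟩
  intro G a p r s hs hsr hd hi hp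
  have hr : 0 < r := by linarith
  have hstep := TWO_step κ hκ (fun G a r hr h1 h2 x hx =>
    ⟨((hK G a r hr h1 h2).2 x hx).1, ((hK G a r hr h1 h2).2 x hx).2.2.1⟩) G a r hd hi
  have hex : ∃ k : ℕ, (2 / 3 : ℝ) ^ k * r ≤ s := by
    obtain ⟨k, hk⟩ := exists_pow_lt_of_lt_one (show 0 < s / r by positivity) (show (2 / 3 : ℝ) < 1 by norm_num)
    refine ⟨k, ?_⟩
    have := (lt_div_iff₀ hr).1 hk
    exact this.le
  classical
  have hf := Nat.find_spec hex
  have hmin : ∀ j < Nat.find hex, ¬ ((2 / 3 : ℝ) ^ j * r ≤ s) := fun j hj => Nat.find_min hex hj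
  have hrs : 1 ≤ r / s := (one_le_div hs).2 hsr
  have hb := hstep (Nat.find hex) p s hs hsr hf hp
  have hD : 0 ≤ ‖deriv G p‖ := norm_nonneg _
  have key : (2 * κ) ^ (Nat.find hex) ≤ 2 * κ * (r / s) ^ N := by
    rcases Nat.eq_zero_or_pos (Nat.find hex) with h0 | h0
    · rw [h0, pow_zero]
      have : 1 ≤ (r / s) ^ N := one_le_pow₀ hrs
      nlinarith
    · obtain ⟨k', hk'⟩ := Nat.exists_eq_succ_of_ne_zero h0.ne'
      have h1 := hmin k' (by omega)
      push Not at h1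
      have h2 : (3 / 2 : ℝ) ^ k' < r / s := by
        rw [lt_div_iff₀ hs]
        have e : (3 / 2 : ℝ) ^ k' * (2 / 3) ^ k' = 1 := by
          rw [← mul_pow]
          norm_num
        calc (3 / 2 : ℝ) ^ k' * s < (3 / 2 : ℝ) ^ k' * ((2 / 3) ^ k' * r) := by gcongr
          _ = r := by rw [← mul_assoc, e, one_mul]
      rw [hk', Nat.succ_eq_add_one, pow_succ, mul_comm]
      have h3 : (2 * κ) ^ k' ≤ (r / s) ^ N := by
        calc (2 * κ) ^ k' ≤ ((3 / 2 : ℝ) ^ N) ^ k' := by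
              apply pow_le_pow_left₀ (by linarith) hN.le
          _ = ((3 / 2 : ℝ) ^ k') ^ N := by rw [← pow_mul, ← pow_mul, mul_comm]
          _ ≤ (r / s) ^ N := by
              apply pow_le_pow_left₀ (by positivity) h2.le
      have : 0 ≤ 2 * κ := by linarith
      gcongr
  calc ‖G a - G p‖ ≤ (2 * κ) ^ (Nat.find hex) * r * ‖deriv G p‖ := hb
    _ ≤ (2 * κ * (r / s) ^ N) * r * ‖deriv G p‖ := by gcongr
    _ = 2 * κ * r * ‖deriv G p‖ * (r / s) ^ N := by ring

end NR
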